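import Pool.Agent.SQD.Stmts
import Pool.Agent.Common_Mertens.Mertens

/-!
# Squad SQD, row SPT: the split primes
-/

set_option autoImplicit false

open scoped BigOperators

noncomputable section

namespace Pool.Agent.SQD.H9

theorem chi_zero (d : ℕ) : chi d 0 = 0 := by
  unfold chi
  rw [if_pos (by norm_num)]

theorem chi_one (d : ℕ) : chi d 1 = 1 := by
  unfold chi
  rw [if_neg (by norm_num), jacobiSym.one_right]
  norm_num

theorem chi_mul (d m n : ℕ) : chi d (m * n) = chi d m * chi d n := by
  unfold chi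
  by_cases hm : m % 2 = 0
  · rw [if_pos hm, if_pos (by rw [Nat.mul_mod, hm, zero_mul, Nat.zero_mod]), zero_mul]
  · by_cases hn : n % 2 = 0
    · rw [if_pos hn, if_pos (by rw [Nat.mul_mod, hn, mul_zero, Nat.zero_mod]), mul_zero]
    · have h1 : ¬ (m * n) % 2 = 0 := by
        have h2 : m % 2 = 1 := by omega
        have h3 : n % 2 = 1 := by omega
        rw [Nat.mul_mod, h2, h3]
        norm_num
      have : NeZero m := ⟨by rintro rfl; exact hm rfl⟩
      have : NeZero n := ⟨by rintro rfl; exact hn rfl⟩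
      rw [if_neg hm, if_neg hn, if_neg h1, jacobiSym.mul_right]
      push_cast
      rfl

theorem chi_vals (d m : ℕ) : chi d m = 0 ∨ chi d m = 1 ∨ chi d m = -1 := by
  unfold chi
  by_cases hm : m % 2 = 0
  · left
    rw [if_pos hm]
  · rw [if_neg hm]
    rcases jacobiSym.trichotomy d m with h | h | h
    · left
      rw [h]
      norm_num
    · right
      left
      rw [h]
      norm_num
    · right
      right
      rw [h]
      norm_num

theorem spt (jac : JacStmt) (abl : AblStmt) (zet : ZetStmt) (eup : EupStmt) : SptStmt := by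
  refine ⟨2 * Real.log 3 + 6, ?_⟩
  intro d z hd hz
  have hd2 : 2 ≤ d := by
    rcases Nat.lt_or_ge d 2 with h | h
    · exfalso
      apply hd
      interval_cases d
      · exact ⟨0, rfl⟩
      · exact ⟨1, rfl⟩
    · exact h
  have hz0 : (2 : ℝ) ≤ z := by exact_mod_cast hz
  have hlog2 : (0.6931471803 : ℝ) < Real.log 2 := Real.log_two_gt_d9
  have hlog2' : Real.log 2 < (0.6931471808 : ℝ) := Real.log_two_lt_d9
  have hlz : Real.log 2 ≤ Real.log z := Real.log_le_log (by norm_num) hz0
  have hlz0 : 0 < Real.log z := by linarith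
  set ε : ℝ := 1 / Real.log z with hε
  have hε0 : 0 < ε := by positivity
  set s : ℝ := 1 + ε with hs
  have hs1 : 1 < s := by linarith
  set T := PR 0 z with hT
  have hTp : ∀ q ∈ T, q.Prime := fun q hq => (Finset.mem_filter.1 hq).2
  obtain ⟨hW0, hE⟩ := eup (chi d) s T hs1 hTp (chi_zero d) (chi_one d) (chi_mul d) (chi_vals d)
  set Z := ∑' m : ℕ, 1 / ((m : ℝ) + 1) ^ s with hZ
  set W := ∑' m : ℕ, chi d (m + 1) / ((m : ℝ) + 1) ^ s with hW
  -- the zeta function
  have h1 : Real.log Z ≤ Real.log (Real.log z) + Real.log 3 := by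
    have h2 := zet s hs1
    have h3 : 1 + 1 / (s - 1) = 1 + Real.log z := by
      rw [hs, hε]
      simp
    rw [h3] at h2
    have h4 : 1 + Real.log z ≤ Real.log z * 3 := by linarith
    have h5 : 0 ≤ Z := tsum_nonneg fun m => by positivity
    rw [← Real.log_mul hlz0.ne' (by norm_num)]
    rcases h5.lt_or_eq with h6 | h6
    · exact Real.log_le_log h6 (h2.trans h4)
    · rw [← h6, Real.log_zero]
      exact Real.log_nonneg (by linarith)
  -- the L-function
  have hd8 : (8 : ℝ) ≤ 4 * d := by
    have : (2 : ℝ) ≤ d := by exact_mod_cast hd2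
    linarith
  have hl8 : (2 : ℝ) ≤ Real.log (4 * d) := by
    have h2 : Real.log 8 ≤ Real.log (4 * d) := Real.log_le_log (by norm_num) hd8
    have h3 : Real.log 8 = 3 * Real.log 2 := by
      rw [show (8 : ℝ) = 2 ^ 3 by norm_num, Real.log_pow]
      norm_num
    linarith
  have h2 : Real.log W ≤ Real.log (Real.log (4 * d)) + Real.log 3 := by
    have h3 := abl (chi d) (4 * d) s (by omega) hs1 (by
      intro m
      rcases chi_vals d m with h | h | h
      · rw [h]; norm_num
      · rw [h]; norm_num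
      · rw [h]; norm_num) (by
      intro M
      have h4 := jac d hd M
      push_cast
      exact h4)
    push_cast at h3
    have h4 : W ≤ 3 + Real.log (4 * d) := (le_abs_self _).trans h3
    rw [← Real.log_mul (by linarith) (by norm_num)]
    refine Real.log_le_log hW0 (h4.trans ?_)
    linarith
  -- the difference
  have h3 : ∀ q ∈ T, (1 + chi d q) / (q : ℝ) ≤ (1 + chi d q) / (q : ℝ) ^ s +
      2 * ε * (Real.log q / q) := by
    intro q hq
    have hq0 : (0 : ℝ) < q := by exact_mod_cast (hTp q hq).pos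
    have hql : 0 ≤ Real.log q := Real.log_nonneg (by exact_mod_cast (hTp q hq).one_lt.le)
    have h4 : (1 - ε * Real.log q) / q ≤ 1 / (q : ℝ) ^ s := by
      have h5 : (q : ℝ) ^ s = q * (q : ℝ) ^ ε := by
        rw [hs, Real.rpow_add hq0, Real.rpow_one]
      have h6 : 1 - ε * Real.log q ≤ ((q : ℝ) ^ ε)⁻¹ := by
        rw [← Real.rpow_neg hq0.le, Real.rpow_def_of_pos hq0]
        have h7 := Real.add_one_le_exp (Real.log q * -ε)
        linarith
      rw [h5, one_div, mul_inv, div_eq_mul_inv, mul_comm (q : ℝ)⁻¹]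
      exact mul_le_mul_of_nonneg_right h6 (by positivity)
    have h5 : 0 ≤ 1 + chi d q := by
      rcases chi_vals d q with h | h | h
      · rw [h]; norm_num
      · rw [h]; norm_num
      · rw [h]; norm_num
    have h6 : 1 + chi d q ≤ 2 := by
      rcases chi_vals d q with h | h | h
      · rw [h]; norm_num
      · rw [h]; norm_num
      · rw [h]; norm_num
    have h7 : (1 + chi d q) / (q : ℝ) = (1 + chi d q) * ((1 - ε * Real.log q) / q) +
        (1 + chi d q) * (ε * (Real.log q / q)) := by
      field_simp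
      ring
    have h8 : (1 + chi d q) * ((1 - ε * Real.log q) / q) ≤ (1 + chi d q) / (q : ℝ) ^ s := by
      rw [div_eq_mul_one_div (1 + chi d q)]
      exact mul_le_mul_of_nonneg_left h4 h5
    have h9 : (1 + chi d q) * (ε * (Real.log q / q)) ≤ 2 * ε * (Real.log q / q) := by
      rw [mul_assoc 2 ε]
      exact mul_le_mul_of_nonneg_right h6 (by positivity)
    rw [h7]
    exact add_le_add h8 h9
  have h4 : ∑ q ∈ T, Real.log q / q ≤ Real.log z + Real.log 4 := by
    have h5 : T = Nat.primesLE z := by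
      ext q
      rw [hT, PR, Finset.mem_filter, Finset.mem_Ioc, Nat.mem_primesLE]
      constructor
      · rintro ⟨⟨_, h6⟩, h7⟩
        exact ⟨h6, h7⟩
      · rintro ⟨h6, h7⟩
        exact ⟨⟨h7.pos, h6⟩, h7⟩
    rw [h5]
    exact Pool.Agent.Common_Mertens.sum_log_div_le (by omega)
  have h5 : 2 * ε * ∑ q ∈ T, Real.log q / q ≤ 6 := by
    have h6 : Real.log 4 = 2 * Real.log 2 := by
      rw [show (4 : ℝ) = 2 ^ 2 by norm_num, Real.log_pow]
      norm_num
    have h7 : 2 * ε * ∑ q ∈ T, Real.log q / q ≤ 2 * ε * (3 * Real.log z) :=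
      mul_le_mul_of_nonneg_left (by linarith) (by positivity)
    have h8 : 2 * ε * (3 * Real.log z) = 6 := by
      rw [hε]
      field_simp
      norm_num
    linarith
  calc ∑ q ∈ T, (1 + chi d q) / (q : ℝ)
      ≤ ∑ q ∈ T, ((1 + chi d q) / (q : ℝ) ^ s + 2 * ε * (Real.log q / q)) :=
        Finset.sum_le_sum h3
    _ = ∑ q ∈ T, (1 + chi d q) / (q : ℝ) ^ s + 2 * ε * ∑ q ∈ T, Real.log q / q := by
        rw [Finset.sum_add_distrib, Finset.mul_sum]
    _ ≤ (Real.log Z + Real.log W) + 6 := add_le_add hE h5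
    _ ≤ Real.log (Real.log z) + Real.log (Real.log (4 * d)) + (2 * Real.log 3 + 6) := by
        linarith

end Pool.Agent.SQD.H9
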